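import Mathlib
import Pool.Agent.V1113.MonoMax

/-!
# A Lie power whose restriction to a maximal subgroup is neither completely reducible nor uniserial
-/

set_option autoImplicit false
set_option linter.all false

namespace Pool.Agent.Results.MP_a1df92_al.LieFifthPower

section defs

variable {F : Type} [Field F] {d : ℕ}

/-- The action of `GL_d(F)` on the tensor algebra of `V = F^d`. -/
noncomputable def act (g : GL (Fin d) F) :
    TensorAlgebra F (Fin d → F) →ₐ[F] TensorAlgebra F (Fin d → F) :=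
  TensorAlgebra.lift F (TensorAlgebra.ι F ∘ₗ Matrix.mulVecLin (g : Matrix (Fin d) (Fin d) F))

/-- The left-normed bracket `[v, l_1, ..., l_r]`. -/
noncomputable def bra (v : Fin d → F) (l : List (Fin d → F)) : TensorAlgebra F (Fin d → F) :=
  l.foldl (fun z w => z * TensorAlgebra.ι F w - TensorAlgebra.ι F w * z) (TensorAlgebra.ι F v)

/-- The Lie power `L^k V`. -/
def LP (F : Type) [Field F] (d k : ℕ) : Submodule F (TensorAlgebra F (Fin d → F)) :=
  Submodule.span F {z | ∃ v l, l.length + 1 = k ∧ z = bra v l}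

/-- `W` is invariant under the subgroup `K`. -/
def IsInv (K : Subgroup (GL (Fin d) F)) (W : Submodule F (TensorAlgebra F (Fin d → F))) : Prop :=
  ∀ g ∈ K, ∀ w ∈ W, act g w ∈ W

/-- `W` is an irreducible `F K`-module. -/
def IsIrr (K : Subgroup (GL (Fin d) F)) (W : Submodule F (TensorAlgebra F (Fin d → F))) : Prop :=
  IsInv K W ∧ W ≠ ⊥ ∧ ∀ W' ≤ W, IsInv K W' → W' = ⊥ ∨ W' = W

/-- Condition `(∗_n)` for `H`. -/
def Star (H : Subgroup (GL (Fin d) F)) (n : ℕ) : Prop :=
  ∀ k, 1 ≤ k → k < n → ∀ W ≤ LP F d k, IsIrr ⊤ W → IsIrr H W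

/-- `L` is the direct sum of irreducible `F H`-submodules. -/
def IsCR (H : Subgroup (GL (Fin d) F)) (L : Submodule F (TensorAlgebra F (Fin d → F))) : Prop :=
  ∃ (ι : Type) (W : ι → Submodule F (TensorAlgebra F (Fin d → F))),
    (∀ i, IsIrr H (W i)) ∧ iSupIndep W ∧ iSup W = L

/-- The `F H`-submodules of `L` form a chain. -/
def IsUniserial (H : Subgroup (GL (Fin d) F)) (L : Submodule F (TensorAlgebra F (Fin d → F))) :
    Prop :=
  ∀ W₁ ≤ L, ∀ W₂ ≤ L, IsInv H W₁ → IsInv H W₂ → W₁ ≤ W₂ ∨ W₂ ≤ W₁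

end defs

open Pool.Agent.V1113.MonoMax TensorAlgebra

variable {F : Type} [Field F]

/-! ### Brackets -/

/-- The bracket. -/
def cm {A : Type*} [Ring A] (a b : A) : A := a * b - b * a

section cm

variable {A : Type*} [Ring A] [Algebra F A]

theorem cm_add_left (a b c : A) : cm (a + b) c = cm a c + cm b c := by unfold cm; noncomm_ring
theorem cm_add_right (a b c : A) : cm a (b + c) = cm a b + cm a c := by unfold cm; noncomm_ring
theorem cm_smul_left (r : F) (a b : A) : cm (r • a) b = r • cm a b := by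
  unfold cm; rw [smul_mul_assoc, mul_smul_comm, smul_sub]
theorem cm_smul_right (r : F) (a b : A) : cm a (r • b) = r • cm a b := by
  unfold cm; rw [smul_mul_assoc, mul_smul_comm, smul_sub]
theorem cm_self (a : A) : cm a a = 0 := by unfold cm; exact sub_self _
theorem cm_anti (a b : A) : cm a b = - cm b a := by unfold cm; abel

/-- `[[u, x], y] = [[u, y], x]` for `u = [x, y]`. -/
theorem cm_symm (x y : A) : cm (cm (cm x y) y) x = cm (cm (cm x y) x) y := by
  unfold cm; noncomm_ring

theorem map_cm {B : Type*} [Ring B] [Algebra F B] (f : A →ₐ[F] B) (a b : A) :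
    f (cm a b) = cm (f a) (f b) := by
  unfold cm; rw [map_sub, map_mul, map_mul]

end cm

/-! ### Rank two -/

/-- The tensor algebra of `F²`. -/
abbrev TT (F : Type) [Field F] : Type := TensorAlgebra F (Fin 2 → F)

noncomputable def x (F : Type) [Field F] : TT F := ι F ![1, 0]
noncomputable def y (F : Type) [Field F] : TT F := ι F ![0, 1]
noncomputable def u (F : Type) [Field F] : TT F := cm (x F) (y F)

theorem ι_eq (v : Fin 2 → F) : ι F v = v 0 • x F + v 1 • y F := by
  rw [x, y, ← map_smul, ← map_smul, ← map_add]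
  congr 1
  ext i
  fin_cases i <;> simp

theorem act_x (a b c d : F) (h : a * d - b * c ≠ 0) : act (mk a b c d h) (x F) = a • x F + c • y F := by
  rw [x, act, lift_ι_apply]
  change ι F (Matrix.mulVec !![a, b; c, d] ![1, 0]) = _
  rw [ι_eq]
  simp [Matrix.mulVec, dotProduct, Fin.sum_univ_two, x]

theorem act_y (a b c d : F) (h : a * d - b * c ≠ 0) : act (mk a b c d h) (y F) = b • x F + d • y F := by
  rw [y, act, lift_ι_apply]
  change ι F (Matrix.mulVec !![a, b; c, d] ![0, 1]) = _
  rw [ι_eq]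
  simp [Matrix.mulVec, dotProduct, Fin.sum_univ_two, y]

theorem act_mul (g h : GL (Fin 2) F) (z : TT F) : act (g * h) z = act g (act h z) := by
  have : act (g * h) = (act g).comp (act h) := by
    apply TensorAlgebra.hom_ext
    apply LinearMap.ext
    intro v
    simp [act, Matrix.mulVec_mulVec]
  rw [this]; rfl

theorem act_u (a b c d : F) (h : a * d - b * c ≠ 0) : act (mk a b c d h) (u F) = (a * d - b * c) • u F := by
  rw [u, map_cm, act_x, act_y]
  simp only [cm_add_left, cm_add_right, cm_smul_left, cm_smul_right, cm_self, cm_anti (y F) (x F)]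
  module

/-! ### The iterated brackets with `u` -/

/-- `[u, s]`, `[u, s, t]` and `[u, s, t, r]`. -/
noncomputable def U1 (s : TT F) : TT F := cm (u F) s
noncomputable def U2 (s t : TT F) : TT F := cm (cm (u F) s) t
noncomputable def U3 (s t r : TT F) : TT F := cm (cm (cm (u F) s) t) r

theorem act_U1 (a b c d : F) (h : a * d - b * c ≠ 0) (s : TT F) :
    act (mk a b c d h) (U1 s) = (a * d - b * c) • U1 (act (mk a b c d h) s) := by
  rw [U1, map_cm, act_u, cm_smul_left]; rfl

theorem act_U2 (a b c d : F) (h : a * d - b * c ≠ 0) (s t : TT F) :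
    act (mk a b c d h) (U2 s t) =
      (a * d - b * c) • U2 (act (mk a b c d h) s) (act (mk a b c d h) t) := by
  rw [U2, map_cm, map_cm, act_u, cm_smul_left, cm_smul_left]; rfl

theorem act_U3 (a b c d : F) (h : a * d - b * c ≠ 0) (s t r : TT F) :
    act (mk a b c d h) (U3 s t r) = (a * d - b * c) •
      U3 (act (mk a b c d h) s) (act (mk a b c d h) t) (act (mk a b c d h) r) := by
  rw [U3, map_cm, map_cm, map_cm, act_u, cm_smul_left, cm_smul_left, cm_smul_left]; rfl

theorem U2_symm : U2 (y F) (x F) = U2 (x F) (y F) := cm_symm (x F) (y F)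

theorem U1_lin (a b : F) : U1 (a • x F + b • y F) = a • U1 (x F) + b • U1 (y F) := by
  simp only [U1, cm_add_right, cm_smul_right]

theorem U2_lin (a b c d : F) : U2 (a • x F + b • y F) (c • x F + d • y F) =
    (a * c) • U2 (x F) (x F) + (a * d + b * c) • U2 (x F) (y F) + (b * d) • U2 (y F) (y F) := by
  have h : U2 (a • x F + b • y F) (c • x F + d • y F) = (a * c) • U2 (x F) (x F) +
    (a * d) • U2 (x F) (y F) + (b * c) • U2 (y F) (x F) + (b * d) • U2 (y F) (y F) := by
    simp only [U2, cm_add_left, cm_add_right, cm_smul_left, cm_smul_right]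
    module
  rw [h, U2_symm]; module

noncomputable def w0 (F : Type) [Field F] : TT F := U3 (x F) (x F) (x F)
noncomputable def w1 (F : Type) [Field F] : TT F :=
  U3 (y F) (x F) (x F) + U3 (x F) (y F) (x F) + U3 (x F) (x F) (y F)
noncomputable def w2 (F : Type) [Field F] : TT F :=
  U3 (x F) (y F) (y F) + U3 (y F) (x F) (y F) + U3 (y F) (y F) (x F)
noncomputable def w3 (F : Type) [Field F] : TT F := U3 (y F) (y F) (y F)

theorem U3_add_left (s s' t r : TT F) : U3 (s + s') t r = U3 s t r + U3 s' t r := by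
  simp only [U3, cm_add_left, cm_add_right]
theorem U3_add_mid (s t t' r : TT F) : U3 s (t + t') r = U3 s t r + U3 s t' r := by
  simp only [U3, cm_add_left, cm_add_right]
theorem U3_add_right (s t r r' : TT F) : U3 s t (r + r') = U3 s t r + U3 s t r' := by
  simp only [U3, cm_add_left, cm_add_right]
theorem U3_smul_left (c : F) (s t r : TT F) : U3 (c • s) t r = c • U3 s t r := by
  simp only [U3, cm_smul_left, cm_smul_right]
theorem U3_smul_mid (c : F) (s t r : TT F) : U3 s (c • t) r = c • U3 s t r := by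
  simp only [U3, cm_smul_left, cm_smul_right]
theorem U3_smul_right (c : F) (s t r : TT F) : U3 s t (c • r) = c • U3 s t r := by
  simp only [U3, cm_smul_left, cm_smul_right]

theorem U3_cube (a b : F) : U3 (a • x F + b • y F) (a • x F + b • y F) (a • x F + b • y F) =
    (a ^ 3) • w0 F + (a ^ 2 * b) • w1 F + (a * b ^ 2) • w2 F + (b ^ 3) • w3 F := by
  simp only [U3_add_left, U3_add_mid, U3_add_right, U3_smul_left, U3_smul_mid, U3_smul_right,
    w0, w1, w2, w3]
  module

/-- The action on the four elements. -/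
theorem act_w0 (a b c d : F) (h : a * d - b * c ≠ 0) : act (mk a b c d h) (w0 F) =
    (a * d - b * c) • ((a ^ 3) • w0 F + (a ^ 2 * c) • w1 F + (a * c ^ 2) • w2 F + (c ^ 3) • w3 F) := by
  rw [w0, act_U3, act_x, U3_cube]; rfl

theorem act_w3 (a b c d : F) (h : a * d - b * c ≠ 0) : act (mk a b c d h) (w3 F) =
    (a * d - b * c) • ((b ^ 3) • w0 F + (b ^ 2 * d) • w1 F + (b * d ^ 2) • w2 F + (d ^ 3) • w3 F) := by
  rw [w3, act_U3, act_y, U3_cube]; rfl

theorem act_w1 (a b c d : F) (h : a * d - b * c ≠ 0) : act (mk a b c d h) (w1 F) =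
    (a * d - b * c) • ((3 * a ^ 2 * b) • w0 F + (a ^ 2 * d + 2 * a * b * c) • w1 F +
      (2 * a * c * d + b * c ^ 2) • w2 F + (3 * c ^ 2 * d) • w3 F) := by
  rw [w1, map_add, map_add, act_U3, act_U3, act_U3, act_x, act_y]
  simp only [U3_add_left, U3_add_mid, U3_add_right, U3_smul_left, U3_smul_mid, U3_smul_right,
    w0, w1, w2, w3]
  module

theorem act_w2 (a b c d : F) (h : a * d - b * c ≠ 0) : act (mk a b c d h) (w2 F) =
    (a * d - b * c) • ((3 * a * b ^ 2) • w0 F + (2 * a * b * d + b ^ 2 * c) • w1 F +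
      (a * d ^ 2 + 2 * b * c * d) • w2 F + (3 * c * d ^ 2) • w3 F) := by
  rw [w2, map_add, map_add, act_U3, act_U3, act_U3, act_x, act_y]
  simp only [U3_add_left, U3_add_mid, U3_add_right, U3_smul_left, U3_smul_mid, U3_smul_right,
    w0, w1, w2, w3]
  module

/-! ### Independence -/

open Polynomial in
/-- A representation by matrices over `F[X]`. -/
noncomputable def rho : TT F →ₐ[F] Matrix (Fin 2) (Fin 2) F[X] :=
  TensorAlgebra.lift F
    { toFun := fun v => !![C (v 0) * X + C (v 1), C (v 0); 0, 0]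
      map_add' := fun v w => by
        ext i j : 2
        fin_cases i <;> fin_cases j <;> simp [add_mul] <;> ring
      map_smul' := fun c v => by
        refine Matrix.ext fun i j => ?_
        fin_cases i <;> fin_cases j
        · change C (c * v 0) * X + C (c * v 1) = c • (C (v 0) * X + C (v 1))
          rw [smul_eq_C_mul, C_mul, C_mul]; ring
        · change C (c * v 0) = c • C (v 0)
          rw [smul_eq_C_mul, C_mul]
        · change (0 : F[X]) = c • 0
          rw [smul_zero]
        · change (0 : F[X]) = c • 0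
          rw [smul_zero] }

open Polynomial in
theorem rho_cm (r : F[X]) (v : Fin 2 → F) : cm !![0, r; 0, 0] (rho (ι F v)) =
    !![0, - r * (C (v 0) * X + C (v 1)); 0, 0] := by
  rw [rho, lift_ι_apply]
  change !![0, r; 0, 0] * !![C (v 0) * X + C (v 1), C (v 0); 0, 0] -
    !![C (v 0) * X + C (v 1), C (v 0); 0, 0] * !![0, r; 0, 0] = _
  rw [Matrix.mul_fin_two, Matrix.mul_fin_two]
  ext i j : 2
  fin_cases i <;> fin_cases j <;> simp <;> ring

open Polynomial in
theorem rho_u : rho (u F) = !![0, -1; 0, 0] := by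
  rw [u, map_cm, x, y, rho, lift_ι_apply, lift_ι_apply]
  change !![C (![1, 0] 0) * X + C (![1, 0] 1), C (![1, 0] 0); 0, 0] *
    !![C (![0, 1] 0) * X + C (![0, 1] 1), C (![0, 1] 0); 0, 0] -
    !![C (![0, 1] 0) * X + C (![0, 1] 1), C (![0, 1] 0); 0, 0] *
    !![C (![1, 0] 0) * X + C (![1, 0] 1), C (![1, 0] 0); 0, 0] = (_ : Matrix (Fin 2) (Fin 2) F[X])
  rw [Matrix.mul_fin_two, Matrix.mul_fin_two]
  ext i j : 2
  fin_cases i <;> fin_cases j <;> simp

open Polynomial in
/-- The linear functional. -/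
noncomputable def psi : TT F →ₗ[F] F[X] where
  toFun z := rho z 0 1
  map_add' a b := by rw [map_add]; rfl
  map_smul' c a := by rw [map_smul]; rfl

open Polynomial in
theorem psi_U2 (v v' : Fin 2 → F) : psi (U2 (ι F v) (ι F v')) =
    - ((C (v 0) * X + C (v 1)) * (C (v' 0) * X + C (v' 1))) := by
  change rho (U2 (ι F v) (ι F v')) 0 1 = _
  rw [U2, map_cm, map_cm, rho_u, rho_cm, rho_cm]
  simp
  ring

open Polynomial in
theorem psi_U3 (v v' v'' : Fin 2 → F) : psi (U3 (ι F v) (ι F v') (ι F v'')) =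
    (C (v 0) * X + C (v 1)) * (C (v' 0) * X + C (v' 1)) * (C (v'' 0) * X + C (v'' 1)) := by
  change rho (U3 (ι F v) (ι F v') (ι F v'')) 0 1 = _
  rw [U3, map_cm, map_cm, map_cm, rho_u, rho_cm, rho_cm, rho_cm]
  simp
  ring

open Polynomial in
theorem psi_w (a b c d : F) [CharP F 2] : psi (a • w0 F + b • w1 F + c • w2 F + d • w3 F) =
    C a * X ^ 3 + C b * X ^ 2 + C c * X + C d := by
  have h2 : (2 : F[X]) = 0 := by
    haveI : CharP F[X] 2 := inferInstance
    exact_mod_cast CharP.cast_eq_zero F[X] 2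
  simp only [map_add, map_smul, w0, w1, w2, w3, x, y, psi_U3]
  simp [Polynomial.smul_eq_C_mul]
  linear_combination (C b * X ^ 2 + C c * X) * h2

/-! ### The Lie powers of degree at most five -/

theorem cm_ι (v w : Fin 2 → F) : cm (ι F v) (ι F w) = (v 0 * w 1 - v 1 * w 0) • u F := by
  rw [ι_eq v, ι_eq w]
  simp only [cm_add_left, cm_add_right, cm_smul_left, cm_smul_right, cm_self, cm_anti (y F) (x F), u]
  module

theorem LP1 : LP F 2 1 ≤ Submodule.span F {x F, y F} := by
  refine Submodule.span_le.2 ?_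
  rintro _ ⟨v, l, hl, rfl⟩
  obtain rfl : l = [] := List.eq_nil_of_length_eq_zero (by omega)
  change ι F v ∈ _
  rw [ι_eq]
  exact Submodule.mem_span_pair.2 ⟨_, _, rfl⟩

theorem LP2 : LP F 2 2 ≤ Submodule.span F {u F} := by
  refine Submodule.span_le.2 ?_
  rintro _ ⟨v, l, hl, rfl⟩
  obtain ⟨a, rfl⟩ := List.length_eq_one_iff.1 (show l.length = 1 by omega)
  change cm (ι F v) (ι F a) ∈ _
  rw [cm_ι]
  exact Submodule.mem_span_singleton.2 ⟨_, rfl⟩

theorem LP3 : LP F 2 3 ≤ Submodule.span F {U1 (x F), U1 (y F)} := by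
  refine Submodule.span_le.2 ?_
  rintro _ ⟨v, l, hl, rfl⟩
  obtain ⟨a, b, rfl⟩ := List.length_eq_two.1 (show l.length = 2 by omega)
  change cm (cm (ι F v) (ι F a)) (ι F b) ∈ _
  rw [cm_ι, cm_smul_left]
  apply Submodule.smul_mem
  change U1 (ι F b) ∈ _
  rw [ι_eq, U1_lin]
  exact Submodule.mem_span_pair.2 ⟨_, _, rfl⟩

theorem LP4 {z : TT F} (hz : z ∈ LP F 2 4) : ∃ a b c : F,
    z = a • U2 (x F) (x F) + b • U2 (x F) (y F) + c • U2 (y F) (y F) := by
  have h : LP F 2 4 ≤ Submodule.span F {U2 (x F) (x F), U2 (x F) (y F), U2 (y F) (y F)} := by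
    refine Submodule.span_le.2 ?_
    rintro _ ⟨v, l, hl, rfl⟩
    obtain ⟨a, b, c, rfl⟩ := List.length_eq_three.1 (show l.length = 3 by omega)
    change cm (cm (cm (ι F v) (ι F a)) (ι F b)) (ι F c) ∈ _
    rw [cm_ι, cm_smul_left, cm_smul_left]
    apply Submodule.smul_mem
    change U2 (ι F b) (ι F c) ∈ _
    rw [ι_eq b, ι_eq c, U2_lin]
    exact Submodule.mem_span_triple.2 ⟨_, _, _, rfl⟩
  obtain ⟨a, b, c, h⟩ := Submodule.mem_span_triple.1 (h hz)
  exact ⟨a, b, c, h.symm⟩

/-- The submodule of `L^5 V`. -/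
noncomputable def W5 (F : Type) [Field F] : Submodule F (TT F) :=
  Submodule.span F (Set.range fun v : Fin 2 → F => U3 (ι F v) (ι F v) (ι F v))

theorem W5_le : W5 F ≤ LP F 2 5 := by
  refine Submodule.span_le.2 ?_
  rintro _ ⟨v, rfl⟩
  exact Submodule.subset_span ⟨![1, 0], [![0, 1], v, v, v], rfl, rfl⟩

theorem act_ι (g : GL (Fin 2) F) (v : Fin 2 → F) :
    act g (ι F v) = ι F (Matrix.mulVec (g : Matrix (Fin 2) (Fin 2) F) v) := by
  rw [act, lift_ι_apply]; rfl

theorem W5_inv : IsInv ⊤ (W5 F) := by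
  intro g _ w hw
  induction hw using Submodule.span_induction with
  | mem z hz =>
    obtain ⟨v, rfl⟩ := hz
    have h1 := act_U3 _ _ _ _ (det_ne g) (ι F v) (ι F v) (ι F v)
    rw [← eq_mk g, act_ι] at h1
    beta_reduce
    rw [h1]
    exact Submodule.smul_mem _ _ (Submodule.subset_span ⟨_, rfl⟩)
  | zero => rw [map_zero]; exact Submodule.zero_mem _
  | add a b _ _ ha hb => rw [map_add]; exact Submodule.add_mem _ ha hb
  | smul c a _ ha => rw [map_smul]; exact Submodule.smul_mem _ _ ha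

theorem mem_W5 {z : TT F} (hz : z ∈ W5 F) : ∃ a b c d : F,
    z = a • w0 F + b • w1 F + c • w2 F + d • w3 F := by
  induction hz using Submodule.span_induction with
  | mem z hz =>
    obtain ⟨v, rfl⟩ := hz
    beta_reduce
    rw [ι_eq, U3_cube]
    exact ⟨_, _, _, _, rfl⟩
  | zero => exact ⟨0, 0, 0, 0, by simp⟩
  | add a b _ _ ha hb =>
    obtain ⟨a1, a2, a3, a4, rfl⟩ := ha
    obtain ⟨b1, b2, b3, b4, rfl⟩ := hb
    exact ⟨a1 + b1, a2 + b2, a3 + b3, a4 + b4, by module⟩
  | smul c a _ ha =>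
    obtain ⟨a1, a2, a3, a4, rfl⟩ := ha
    exact ⟨c * a1, c * a2, c * a3, c * a4, by module⟩

/-- The submodule `[u, v, v]` of `L^4 V`. -/
noncomputable def Q4 (F : Type) [Field F] : Submodule F (TT F) :=
  Submodule.span F (Set.range fun v : Fin 2 → F => U2 (ι F v) (ι F v))

theorem Q4_inv : IsInv ⊤ (Q4 F) := by
  intro g _ w hw
  induction hw using Submodule.span_induction with
  | mem z hz =>
    obtain ⟨v, rfl⟩ := hz
    have h1 := act_U2 _ _ _ _ (det_ne g) (ι F v) (ι F v)
    rw [← eq_mk g, act_ι] at h1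
    beta_reduce
    rw [h1]
    exact Submodule.smul_mem _ _ (Submodule.subset_span ⟨_, rfl⟩)
  | zero => rw [map_zero]; exact Submodule.zero_mem _
  | add a b _ _ ha hb => rw [map_add]; exact Submodule.add_mem _ ha hb
  | smul c a _ ha => rw [map_smul]; exact Submodule.smul_mem _ _ ha

/-! ### Irreducibility over the field of four elements -/

section four

variable [CharP F 2] {ω : F} (hω : ω * ω + ω + 1 = 0)
  (hF : ∀ a : F, a ≠ 0 → a = 1 ∨ a = ω ∨ a = ω * ω)

theorem two0 : (2 : F) = 0 := CharP.cast_eq_zero F 2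

theorem three1 : (3 : F) = 1 := by
  have := two0 (F := F)
  linear_combination this

include hω in
theorem ω_ne : ω ≠ 0 ∧ ω ≠ 1 := by
  constructor
  · rintro rfl
    norm_num at hω
  · rintro rfl
    have h2 := two0 (F := F)
    apply one_ne_zero (α := F)
    linear_combination hω - h2

theorem Q4_eq : Q4 F = Submodule.span F {U2 (x F) (x F), U2 (y F) (y F)} := by
  apply le_antisymm
  · refine Submodule.span_le.2 ?_
    rintro _ ⟨v, rfl⟩
    beta_reduce
    rw [ι_eq, U2_lin]
    have : v 0 * v 1 + v 1 * v 0 = 0 := by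
      have := two0 (F := F)
      linear_combination (v 0 * v 1) * this
    rw [this, zero_smul, add_zero]
    exact Submodule.mem_span_pair.2 ⟨_, _, rfl⟩
  · refine Submodule.span_le.2 ?_
    rintro _ (rfl | rfl)
    · exact Submodule.subset_span ⟨![1, 0], rfl⟩
    · exact Submodule.subset_span ⟨![0, 1], rfl⟩

/-- The swap and the diagonal matrices. -/
noncomputable def sw (F : Type) [Field F] : GL (Fin 2) F := mk 0 1 1 0 (by norm_num)

theorem sw_mem : sw F ∈ HH F := swap_mem _

noncomputable def dg (a d : F) (h : a * d - 0 * 0 ≠ 0) : GL (Fin 2) F := mk a 0 0 d h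

theorem dg_mem (a d : F) (h : a * d - 0 * 0 ≠ 0) : dg a d h ∈ HH F := diag_mem h

theorem sw_x : act (sw F) (x F) = y F := by rw [sw, act_x]; module
theorem sw_y : act (sw F) (y F) = x F := by rw [sw, act_y]; module
theorem sw_det : (0 * 0 - 1 * 1 : F) = 1 := by
  have := two0 (F := F)
  linear_combination -this
theorem sw_u : act (sw F) (u F) = u F := by rw [sw, act_u, sw_det, one_smul]
theorem sw_U1x : act (sw F) (U1 (x F)) = U1 (y F) := by
  rw [sw, act_U1, sw_det, one_smul, ← sw, sw_x]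
theorem sw_U1y : act (sw F) (U1 (y F)) = U1 (x F) := by
  rw [sw, act_U1, sw_det, one_smul, ← sw, sw_y]
theorem sw_U2x : act (sw F) (U2 (x F) (x F)) = U2 (y F) (y F) := by
  rw [sw, act_U2, sw_det, one_smul, ← sw, sw_x]
theorem sw_U2y : act (sw F) (U2 (y F) (y F)) = U2 (x F) (x F) := by
  rw [sw, act_U2, sw_det, one_smul, ← sw, sw_y]
theorem sw_w0 : act (sw F) (w0 F) = w3 F := by
  rw [sw, act_w0, sw_det]; module
theorem sw_w3 : act (sw F) (w3 F) = w0 F := by
  rw [sw, act_w3, sw_det]; module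
theorem sw_w1 : act (sw F) (w1 F) = w2 F := by
  rw [sw, act_w1, sw_det]; module
theorem sw_w2 : act (sw F) (w2 F) = w1 F := by
  rw [sw, act_w2, sw_det]; module

theorem irr2 {p q : TT F} {s d : GL (Fin 2) F} (hs : s ∈ HH F) (hd : d ∈ HH F) {l m : F}
    (hlm : l ≠ m) (h1 : act s p = q) (h2 : act s q = p) (h3 : act d p = l • p)
    (h4 : act d q = m • q) {N : Submodule F (TT F)} (hN : IsInv (HH F) N) (hN0 : N ≠ ⊥)
    (hle : N ≤ Submodule.span F {p, q}) : Submodule.span F {p, q} ≤ N := by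
  obtain ⟨n, hn, hn0⟩ := Submodule.exists_mem_ne_zero_of_ne_bot hN0
  obtain ⟨a, b, rfl⟩ := Submodule.mem_span_pair.1 (hle hn)
  have hpq : p ∈ N → Submodule.span F {p, q} ≤ N := by
    intro hp
    refine Submodule.span_le.2 ?_
    rintro _ (rfl | rfl)
    · exact hp
    · rw [← h1]; exact hN s hs _ hp
  by_cases ha : a = 0
  · subst ha
    have hb : b ≠ 0 := by rintro rfl; apply hn0; simp
    rw [zero_smul, zero_add] at hn
    have hq : q ∈ N := by
      have := N.smul_mem b⁻¹ hn
      rwa [smul_smul, inv_mul_cancel₀ hb, one_smul] at this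
    apply hpq
    rw [← h2]
    exact hN s hs _ hq
  · apply hpq
    have h5 : act d (a • p + b • q) - m • (a • p + b • q) = (a * (l - m)) • p := by
      rw [map_add, map_smul, map_smul, h3, h4]; module
    have h6 : (a * (l - m)) • p ∈ N := by
      rw [← h5]
      exact N.sub_mem (hN d hd _ hn) (N.smul_mem _ hn)
    have := N.smul_mem (a * (l - m))⁻¹ h6
    rwa [smul_smul, inv_mul_cancel₀ (mul_ne_zero ha (sub_ne_zero.2 hlm)), one_smul] at this

/-- Restriction to `H` of an irreducible module inside the span of `p` and `q`. -/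
theorem irr_restrict {W : Submodule F (TT F)} (hW : IsIrr ⊤ W)
    (h : ∀ N ≤ W, IsInv (HH F) N → N ≠ ⊥ → W ≤ N) : IsIrr (HH F) W :=
  ⟨fun g _ => hW.1 g trivial, hW.2.1, fun N hN hi => by
    by_cases h0 : N = ⊥
    · exact Or.inl h0
    · exact Or.inr (le_antisymm hN (h N hN hi h0))⟩

end four

/-! ### The restrictions to the subgroup -/

section restrict

theorem act_one (z : TT F) : act (1 : GL (Fin 2) F) z = z := by
  have : act (1 : GL (Fin 2) F) = AlgHom.id F (TT F) := by
    apply TensorAlgebra.hom_ext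
    apply LinearMap.ext
    intro v
    simp [act]
  rw [this]; rfl

theorem HH_cases {h : GL (Fin 2) F} (hh : h ∈ HH F) :
    ∃ (a b : F) (hab : a * b - 0 * 0 ≠ 0), h = dg a b hab ∨ h = dg a b hab * sw F := by
  have hd := det_ne h
  rcases hh with ⟨h1, h2⟩ | ⟨h1, h2⟩
  · rw [h1, h2] at hd
    refine ⟨h 0 0, h 1 1, hd, Or.inl ?_⟩
    apply Units.ext
    rw [dg, mk_val]
    ext i j
    fin_cases i <;> fin_cases j <;> simp [h1, h2]
  · rw [h1, h2] at hd
    refine ⟨h 0 1, h 1 0, fun h3 => hd (by linear_combination -h3), Or.inr ?_⟩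
    apply Units.ext
    rw [dg, sw, Units.val_mul, mk_val, mk_val]
    ext i j
    fin_cases i <;> fin_cases j <;> simp [h1, h2, Matrix.mul_apply, Fin.sum_univ_two]

theorem inv_of {W : Submodule F (TT F)} (h1 : ∀ (a b : F) (h : a * b - 0 * 0 ≠ 0), ∀ w ∈ W,
    act (dg a b h) w ∈ W) (h2 : ∀ w ∈ W, act (sw F) w ∈ W) : IsInv (HH F) W := by
  intro g hg w hw
  obtain ⟨a, b, hab, rfl | rfl⟩ := HH_cases hg
  · exact h1 a b hab w hw
  · rw [act_mul]; exact h1 a b hab _ (h2 w hw)

theorem dg_w0 (a b : F) (h : a * b - 0 * 0 ≠ 0) : act (dg a b h) (w0 F) = (a * b * a ^ 3) • w0 F := by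
  rw [dg, act_w0]; module
theorem dg_w1 (a b : F) (h : a * b - 0 * 0 ≠ 0) : act (dg a b h) (w1 F) = (a * b * (a ^ 2 * b)) • w1 F := by
  rw [dg, act_w1]; module
theorem dg_w2 (a b : F) (h : a * b - 0 * 0 ≠ 0) : act (dg a b h) (w2 F) = (a * b * (a * b ^ 2)) • w2 F := by
  rw [dg, act_w2]; module
theorem dg_w3 (a b : F) (h : a * b - 0 * 0 ≠ 0) : act (dg a b h) (w3 F) = (a * b * b ^ 3) • w3 F := by
  rw [dg, act_w3]; module

variable [CharP F 2]

theorem inv03 : IsInv (HH F) (Submodule.span F {w0 F, w3 F}) := by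
  refine inv_of (fun a b h w hw => ?_) (fun w hw => ?_)
  · obtain ⟨c, d, rfl⟩ := Submodule.mem_span_pair.1 hw
    rw [map_add, map_smul, map_smul, dg_w0, dg_w3, smul_smul, smul_smul]
    exact Submodule.mem_span_pair.2 ⟨_, _, rfl⟩
  · obtain ⟨c, d, rfl⟩ := Submodule.mem_span_pair.1 hw
    rw [map_add, map_smul, map_smul, sw_w0, sw_w3]
    exact Submodule.mem_span_pair.2 ⟨d, c, by abel⟩

theorem inv12 : IsInv (HH F) (Submodule.span F {w1 F, w2 F}) := by
  refine inv_of (fun a b h w hw => ?_) (fun w hw => ?_)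
  · obtain ⟨c, d, rfl⟩ := Submodule.mem_span_pair.1 hw
    rw [map_add, map_smul, map_smul, dg_w1, dg_w2, smul_smul, smul_smul]
    exact Submodule.mem_span_pair.2 ⟨_, _, rfl⟩
  · obtain ⟨c, d, rfl⟩ := Submodule.mem_span_pair.1 hw
    rw [map_add, map_smul, map_smul, sw_w1, sw_w2]
    exact Submodule.mem_span_pair.2 ⟨d, c, by abel⟩

open Polynomial in
theorem coeffs {a b c d : F} (h : a • w0 F + b • w1 F + c • w2 F + d • w3 F = 0) :
    a = 0 ∧ b = 0 ∧ c = 0 ∧ d = 0 := by
  have h1 := congrArg psi h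
  rw [psi_w, map_zero] at h1
  have e3 := congrArg (fun q : F[X] => q.coeff 3) h1
  have e2 := congrArg (fun q : F[X] => q.coeff 2) h1
  have e1 := congrArg (fun q : F[X] => q.coeff 1) h1
  have e0 := congrArg (fun q : F[X] => q.coeff 0) h1
  simp [coeff_X, coeff_C, coeff_X_pow] at e3 e2 e1 e0
  exact ⟨e3, e2, e1, e0⟩

theorem w0_notMem : w0 F ∉ Submodule.span F {w1 F, w2 F} := by
  intro h
  obtain ⟨a, b, h⟩ := Submodule.mem_span_pair.1 h
  have h1 : (-1 : F) • w0 F + a • w1 F + b • w2 F + (0 : F) • w3 F = 0 := by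
    rw [← h]; module
  have := (coeffs h1).1
  exact one_ne_zero (neg_eq_zero.1 this)

theorem w1_notMem : w1 F ∉ Submodule.span F {w0 F, w3 F} := by
  intro h
  obtain ⟨a, b, h⟩ := Submodule.mem_span_pair.1 h
  have h1 : a • w0 F + (-1 : F) • w1 F + (0 : F) • w2 F + b • w3 F = 0 := by
    rw [← h]; module
  have := (coeffs h1).2.1
  exact one_ne_zero (neg_eq_zero.1 this)

theorem w0_ne : w0 F ≠ 0 := by
  intro h
  have h1 : (1 : F) • w0 F + (0 : F) • w1 F + (0 : F) • w2 F + (0 : F) • w3 F = 0 := by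
    rw [h]; module
  exact one_ne_zero (coeffs h1).1

theorem w0_mem : w0 F ∈ W5 F := Submodule.subset_span ⟨![1, 0], rfl⟩

variable {ω : F} (hω : ω * ω + ω + 1 = 0)

include hω in
theorem ω3 : ω ^ 3 = 1 := by linear_combination (ω - 1) * hω

include hω in
theorem all_mem {N : Submodule F (TT F)} (hN : IsInv ⊤ N) (h : w0 F ∈ N) :
    w1 F ∈ N ∧ w2 F ∈ N ∧ w3 F ∈ N := by
  have h3 : w3 F ∈ N := by rw [← sw_w0]; exact hN _ trivial _ h
  have ht : ∀ t : F, t • w1 F + (t ^ 2) • w2 F ∈ N := by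
    intro t
    have h1 := hN (mk 1 0 t 1 (by norm_num)) trivial _ h
    rw [act_w0] at h1
    have h2 := N.sub_mem (N.sub_mem h1 h) (N.smul_mem (t ^ 3) h3)
    convert h2 using 1
    module
  have h1 := ht 1
  have h2 := ht ω
  have h5 : w2 F ∈ N := by
    have h4 := N.sub_mem h2 (N.smul_mem ω h1)
    have h6 : (ω ^ 2 - ω) • w2 F ∈ N := by
      convert h4 using 1
      module
    have h7 : ω ^ 2 - ω = 1 := by
      have := two0 (F := F)
      linear_combination hω - (ω + 1) * this
    rwa [h7, one_smul] at h6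
  refine ⟨?_, h5, h3⟩
  have := N.sub_mem h1 h5
  convert this using 1
  module

include hω in
theorem W5_le_of {N : Submodule F (TT F)} (hN : IsInv ⊤ N) (h : w0 F ∈ N) : W5 F ≤ N := by
  intro z hz
  obtain ⟨a, b, c, d, rfl⟩ := mem_W5 hz
  obtain ⟨h1, h2, h3⟩ := all_mem hω hN h
  exact N.add_mem (N.add_mem (N.add_mem (N.smul_mem _ h) (N.smul_mem _ h1)) (N.smul_mem _ h2))
    (N.smul_mem _ h3)

include hω in
theorem exists_t {b c : F} (h : ¬ (b = 0 ∧ c = 0)) : ∃ t : F, b * t + c * t ^ 2 ≠ 0 := by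
  by_contra h'
  push Not at h'
  have h1 := h' 1
  have h2 := h' ω
  have h3 : c = 0 := by
    have : c * (ω ^ 2 - ω) = 0 := by linear_combination h2 - ω * h1
    have h7 : ω ^ 2 - ω = 1 := by
      have := two0 (F := F)
      linear_combination hω - (ω + 1) * this
    rwa [h7, mul_one] at this
  apply h
  refine ⟨?_, h3⟩
  rw [h3] at h1
  linear_combination h1

include hω in
theorem W5_irr : IsIrr ⊤ (W5 F) := by
  refine ⟨W5_inv, fun h => w0_ne (F := F) ?_, fun N hN hi => ?_⟩
  · have := w0_mem (F := F)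
    rwa [h, Submodule.mem_bot] at this
  by_cases hN0 : N = ⊥
  · exact Or.inl hN0
  right
  apply le_antisymm hN
  apply W5_le_of hω hi
  obtain ⟨n, hn, hn0⟩ := Submodule.exists_mem_ne_zero_of_ne_bot hN0
  obtain ⟨a, b, c, d, rfl⟩ := mem_W5 (hN hn)
  have ht : ∀ t : F, (b * t + c * t ^ 2 + d * t ^ 3) • w0 F + (d * t ^ 2) • w1 F +
      (d * t) • w2 F ∈ N := by
    intro t
    have h1 := hi (mk 1 t 0 1 (by norm_num)) trivial _ hn
    have h2 := N.sub_mem h1 hn
    rw [map_add, map_add, map_add, map_smul, map_smul, map_smul, map_smul, act_w0, act_w1, act_w2,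
      act_w3, three1] at h2
    have h3 : (2 : F) = 0 := two0
    rw [h3] at h2
    convert h2 using 1
    module
  have hsmul : ∀ {r : F}, r ≠ 0 → r • w0 F ∈ N → w0 F ∈ N := by
    intro r hr h
    have := N.smul_mem r⁻¹ h
    rwa [smul_smul, inv_mul_cancel₀ hr, one_smul] at this
  by_cases hd : d = 0
  · subst hd
    by_cases hbc : b = 0 ∧ c = 0
    · obtain ⟨rfl, rfl⟩ := hbc
      have ha : a ≠ 0 := by rintro rfl; apply hn0; simp
      apply hsmul ha
      convert hn using 1
      module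
    · obtain ⟨t, ht'⟩ := exists_t hω hbc
      apply hsmul ht'
      convert ht t using 1
      module
  · apply hsmul hd
    have h1 := N.add_mem (N.add_mem (ht 1) (ht ω)) (ht (ω ^ 2))
    convert h1 using 1
    have e1 : ω ^ 2 = - ω - 1 := by linear_combination hω
    have e3 : ω ^ 3 = 1 := ω3 hω
    have e4 : ω ^ 4 = ω := by rw [show (4 : ℕ) = 3 + 1 from rfl, pow_succ, e3, one_mul]
    have e6 : (ω ^ 2) ^ 3 = 1 := by rw [← pow_mul, mul_comm, pow_mul, e3, one_pow]
    have c0 : (b * 1 + c * 1 ^ 2 + d * 1 ^ 3) + (b * ω + c * ω ^ 2 + d * ω ^ 3) +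
        (b * ω ^ 2 + c * (ω ^ 2) ^ 2 + d * (ω ^ 2) ^ 3) = d := by
      have h2 : (2 : F) = 0 := two0
      rw [e6, e3, ← pow_mul, show 2 * 2 = 4 from rfl, e4, e1]
      linear_combination d * h2
    have c1 : d * 1 ^ 2 + d * ω ^ 2 + d * (ω ^ 2) ^ 2 = 0 := by
      rw [← pow_mul, show 2 * 2 = 4 from rfl, e4, e1]; ring
    have c2 : d * 1 + d * ω + d * ω ^ 2 = 0 := by
      rw [e1]; ring
    calc d • w0 F = ((b * 1 + c * 1 ^ 2 + d * 1 ^ 3) + (b * ω + c * ω ^ 2 + d * ω ^ 3) +
        (b * ω ^ 2 + c * (ω ^ 2) ^ 2 + d * (ω ^ 2) ^ 3)) • w0 F +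
        (d * 1 ^ 2 + d * ω ^ 2 + d * (ω ^ 2) ^ 2) • w1 F + (d * 1 + d * ω + d * ω ^ 2) • w2 F := by
          rw [c0, c1, c2, zero_smul, zero_smul, add_zero, add_zero]
      _ = _ := by module

include hω in
theorem not_uniserial : ¬ IsUniserial (HH F) (LP F 2 5) := by
  intro h
  obtain ⟨h1, h2, h3⟩ := all_mem hω W5_inv (w0_mem (F := F))
  have l1 : Submodule.span F {w0 F, w3 F} ≤ LP F 2 5 := by
    refine le_trans (Submodule.span_le.2 ?_) W5_le
    rintro _ (rfl | rfl)
    · exact w0_mem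
    · exact h3
  have l2 : Submodule.span F {w1 F, w2 F} ≤ LP F 2 5 := by
    refine le_trans (Submodule.span_le.2 ?_) W5_le
    rintro _ (rfl | rfl)
    · exact h1
    · exact h2
  rcases h _ l1 _ l2 inv03 inv12 with h4 | h4
  · exact w0_notMem (h4 (Submodule.subset_span (by simp)))
  · exact w1_notMem (h4 (Submodule.subset_span (by simp)))

include hω in
theorem not_star6 : ¬ Star (HH F) 6 := by
  intro h
  have h1 := h 5 (by norm_num) (by norm_num) (W5 F) W5_le (W5_irr hω)
  obtain ⟨h2, -, h3⟩ := all_mem hω W5_inv (w0_mem (F := F))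
  have l1 : Submodule.span F {w0 F, w3 F} ≤ W5 F := by
    refine Submodule.span_le.2 ?_
    rintro _ (rfl | rfl)
    · exact w0_mem
    · exact h3
  rcases h1.2.2 _ l1 inv03 with h4 | h4
  · apply w0_ne (F := F)
    rw [← Submodule.mem_bot F, ← h4]
    exact Submodule.subset_span (by simp)
  · apply w1_notMem (F := F)
    rw [h4]
    exact h2

end restrict

/-! ### Condition `(∗_5)` -/

section star5

variable [CharP F 2] {ω : F} (hω : ω * ω + ω + 1 = 0)

theorem span_le_of_span_singleton {p : TT F} {N : Submodule F (TT F)} (hN0 : N ≠ ⊥)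
    (hle : N ≤ Submodule.span F {p}) : Submodule.span F {p} ≤ N := by
  obtain ⟨n, hn, hn0⟩ := Submodule.exists_mem_ne_zero_of_ne_bot hN0
  obtain ⟨a, rfl⟩ := Submodule.mem_span_singleton.1 (hle hn)
  have ha : a ≠ 0 := by rintro rfl; apply hn0; simp
  rw [Submodule.span_singleton_le_iff_mem]
  have := N.smul_mem a⁻¹ hn
  rwa [smul_smul, inv_mul_cancel₀ ha, one_smul] at this

include hω in
theorem dgω : ω * 1 - 0 * 0 ≠ 0 := by
  rw [mul_one, mul_zero, sub_zero]; exact (ω_ne hω).1

theorem Uxx_ne : U2 (x F) (x F) ≠ 0 := by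
  intro h
  have h1 := congrArg psi h
  rw [x, psi_U2, map_zero] at h1
  simp at h1

include hω in
theorem star5 : Star (HH F) 5 := by
  intro k hk1 hk5 W hW hirr
  have hω0 := (ω_ne hω).1
  have hω1 := (ω_ne hω).2
  have hd := dg_mem ω 1 (dgω hω)
  interval_cases k
  · refine irr_restrict hirr fun N hN hi hN0 => ?_
    refine (hW.trans LP1).trans (irr2 sw_mem hd hω1 sw_x sw_y ?_ ?_ hi hN0 (hN.trans (hW.trans LP1)))
    · rw [dg, act_x]; module
    · rw [dg, act_y]; module
  · refine irr_restrict hirr fun N hN hi hN0 => ?_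
    exact (hW.trans LP2).trans (span_le_of_span_singleton hN0 (hN.trans (hW.trans LP2)))
  · refine irr_restrict hirr fun N hN hi hN0 => ?_
    have h1 : ω * ω ≠ ω := by
      intro h
      apply hω1
      exact mul_left_cancel₀ hω0 (by rw [h, mul_one])
    refine (hW.trans LP3).trans (irr2 sw_mem hd h1 sw_U1x sw_U1y ?_ ?_ hi hN0 (hN.trans (hW.trans LP3)))
    · rw [dg, act_U1, act_x]
      have := U1_lin ω (0 : F)
      rw [zero_smul, add_zero, zero_smul, add_zero] at this
      rw [zero_smul, add_zero, this]; module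
    · rw [dg, act_U1, act_y]
      have := U1_lin (0 : F) (1 : F)
      rw [this]; module
  · -- `k = 4`
    have hsub : Q4 F ≤ W := by
      rw [Q4_eq]
      have hx : U2 (x F) (x F) ∈ W := by
        obtain ⟨n, hn, hn0⟩ := Submodule.exists_mem_ne_zero_of_ne_bot hirr.2.1
        obtain ⟨a, b, c, rfl⟩ := LP4 (hW hn)
        have ht : ∀ t : F, (b * t + c * t ^ 2) • U2 (x F) (x F) ∈ W := by
          intro t
          have h1 := hirr.1 (mk 1 t 0 1 (by norm_num)) trivial _ hn
          have h2 := W.sub_mem h1 hn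
          have e1 : act (mk 1 t 0 1 (by norm_num)) (U2 (x F) (x F)) = U2 (x F) (x F) := by
            rw [act_U2, act_x, U2_lin]; module
          have e2 : act (mk 1 t 0 1 (by norm_num)) (U2 (x F) (y F)) =
              t • U2 (x F) (x F) + U2 (x F) (y F) := by
            rw [act_U2, act_x, act_y, U2_lin]; module
          have e3 : act (mk 1 t 0 1 (by norm_num)) (U2 (y F) (y F)) =
              (t ^ 2) • U2 (x F) (x F) + U2 (y F) (y F) := by
            rw [act_U2, act_y, U2_lin]
            have h3 : t * 1 + 1 * t = 0 := by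
              have h2 : (2 : F) = 0 := two0
              linear_combination t * h2
            rw [h3]; module
          rw [map_add, map_add, map_smul, map_smul, map_smul, e1, e2, e3] at h2
          convert h2 using 1
          module
        have hsmul : ∀ {r : F}, r ≠ 0 → r • U2 (x F) (x F) ∈ W → U2 (x F) (x F) ∈ W := by
          intro r hr h
          have := W.smul_mem r⁻¹ h
          rwa [smul_smul, inv_mul_cancel₀ hr, one_smul] at this
        by_cases hbc : b = 0 ∧ c = 0
        · obtain ⟨rfl, rfl⟩ := hbc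
          have ha : a ≠ 0 := by rintro rfl; apply hn0; simp
          apply hsmul ha
          convert hn using 1
          module
        · obtain ⟨t, ht'⟩ := exists_t hω hbc
          exact hsmul ht' (ht t)
      refine Submodule.span_le.2 ?_
      rintro _ (rfl | rfl)
      · exact hx
      · rw [← sw_U2x]; exact hirr.1 _ trivial _ hx
    have hQ : Q4 F = W := by
      rcases hirr.2.2 _ hsub Q4_inv with h | h
      · exfalso
        apply Uxx_ne (F := F)
        rw [← Submodule.mem_bot F, ← h, Q4_eq]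
        exact Submodule.subset_span (by simp)
      · exact h
    refine irr_restrict hirr fun N hN hi hN0 => ?_
    rw [← hQ, Q4_eq] at hN ⊢
    refine irr2 sw_mem hd hω1.symm sw_U2x sw_U2y ?_ ?_ hi hN0 hN
    · rw [dg, act_U2, act_x, U2_lin]
      have h3 : (ω * 1 - 0 * 0) * (ω * ω) = 1 := by
        have := ω3 hω
        linear_combination this
      simp only [mul_zero, zero_mul, add_zero, zero_smul, smul_smul]
      rw [show (ω * 1 - 0) * (ω * ω) = 1 by linear_combination ω3 hω]
    · rw [dg, act_U2, act_y, U2_lin]; module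

end star5

/-! ### Complete reducibility -/

section cr

variable [CharP F 2] {ω : F} (hω : ω * ω + ω + 1 = 0)
  (hF : ∀ a : F, a ≠ 0 → a = 1 ∨ a = ω ∨ a = ω * ω)

theorem dg_congr {a b a' b' : F} (h : a * b - 0 * 0 ≠ 0) (ha : a = a') (hb : b = b') :
    ∃ h', dg a b h = dg a' b' h' := by
  subst ha hb; exact ⟨h, rfl⟩

theorem dg_mul {a b a' b' : F} (h : a * b - 0 * 0 ≠ 0) (h' : a' * b' - 0 * 0 ≠ 0)
    (h'' : (a * a') * (b * b') - 0 * 0 ≠ 0) : dg a b h * dg a' b' h' = dg (a * a') (b * b') h'' := by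
  apply Units.ext
  rw [Units.val_mul]
  change !![a, 0; 0, b] * !![a', 0; 0, b'] = !![a * a', 0; 0, b * b']
  rw [Matrix.mul_fin_two]
  simp

theorem sw_dg {a b : F} (h : a * b - 0 * 0 ≠ 0) (h' : b * a - 0 * 0 ≠ 0) :
    dg a b h * sw F = sw F * dg b a h' := by
  apply Units.ext
  rw [Units.val_mul, Units.val_mul]
  change !![a, 0; 0, b] * !![0, 1; 1, 0] = !![0, 1; 1, 0] * !![b, 0; 0, a]
  rw [Matrix.mul_fin_two, Matrix.mul_fin_two]
  simp

theorem sw_sw (z : TT F) : act (sw F) (act (sw F) z) = z := by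
  rw [← act_mul]
  have : sw F * sw F = 1 := by
    apply Units.ext
    rw [Units.val_mul]
    change !![(0 : F), 1; 1, 0] * !![0, 1; 1, 0] = 1
    rw [Matrix.mul_fin_two, Matrix.one_fin_two]
    simp
  rw [this, act_one]

theorem dg_one (h : (1 : F) * 1 - 0 * 0 ≠ 0) : dg 1 1 h = 1 := by
  apply Units.ext
  change !![(1 : F), 0; 0, 1] = 1
  rw [Matrix.one_fin_two]

include hω in
theorem dgω' : 1 * ω - 0 * 0 ≠ 0 := by
  rw [one_mul, mul_zero, sub_zero]; exact (ω_ne hω).1

include hF in
/-- The torus acts on a joint eigenvector by the character `ab`. -/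
theorem torus {z : TT F} (h1 : act (dg ω 1 (dgω hω)) z = ω • z) (h2 : act (dg 1 ω (dgω' hω)) z = ω • z)
    {a b : F} (h : a * b - 0 * 0 ≠ 0) : act (dg a b h) z = (a * b) • z := by
  have ha0 : a ≠ 0 := by rintro rfl; apply h; ring
  have hb0 : b ≠ 0 := by rintro rfl; apply h; ring
  have ha : ∀ (h : a * 1 - 0 * 0 ≠ 0), act (dg a 1 h) z = a • z := by
    intro h
    rcases hF a ha0 with rfl | rfl | rfl
    · rw [dg_one, act_one, one_smul]
    · exact h1
    · obtain ⟨h', e⟩ := dg_congr h rfl (mul_one (1 : F)).symm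
      rw [e, ← dg_mul (dgω hω) (dgω hω), act_mul, h1, map_smul, h1, smul_smul]
  have hb : ∀ (h : 1 * b - 0 * 0 ≠ 0), act (dg 1 b h) z = b • z := by
    intro h
    rcases hF b hb0 with rfl | rfl | rfl
    · rw [dg_one, act_one, one_smul]
    · exact h2
    · obtain ⟨h', e⟩ := dg_congr h (mul_one (1 : F)).symm rfl
      rw [e, ← dg_mul (dgω' hω) (dgω' hω), act_mul, h2, map_smul, h2, smul_smul]
  have ha1 : a * 1 - 0 * 0 ≠ 0 := by rw [mul_one, mul_zero, sub_zero]; exact ha0
  have hb1 : 1 * b - 0 * 0 ≠ 0 := by rw [one_mul, mul_zero, sub_zero]; exact hb0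
  obtain ⟨h', e⟩ := dg_congr h (mul_one a).symm (one_mul b).symm
  rw [e, ← dg_mul ha1 hb1, act_mul, hb hb1, map_smul, ha ha1, smul_smul, mul_comm]

/-- The projection for one operator. -/
noncomputable def ee (ω : F) (D : TT F →ₐ[F] TT F) (z : TT F) : TT F :=
  z + (ω ^ 2) • D z + ω • D (D z)

include hω in
theorem ee_eig {D : TT F →ₐ[F] TT F} (hD : ∀ z, D (D (D z)) = z) (z : TT F) :
    D (ee ω D z) = ω • ee ω D z := by
  unfold ee
  rw [map_add, map_add, map_smul, map_smul, hD]
  have h3 := ω3 hω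
  rw [smul_add, smul_add, smul_smul, smul_smul, show ω * ω ^ 2 = 1 by rw [← h3]; ring, one_smul,
    show ω * ω = ω ^ 2 by ring]
  abel

theorem ee_comm {D D' : TT F →ₐ[F] TT F} (h : ∀ z, D (D' z) = D' (D z)) (z : TT F) :
    D' (ee ω D z) = ee ω D (D' z) := by
  unfold ee
  simp only [map_add, map_smul, h]

theorem ee_fix {D : TT F →ₐ[F] TT F} {z : TT F} (h : D z = ω • z) (hω : ω * ω + ω + 1 = 0)  :
    ee ω D z = z := by
  unfold ee
  rw [h, map_smul, h, smul_smul, smul_smul, smul_smul]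
  have h3 := ω3 hω
  have h2 : (2 : F) = 0 := two0
  calc z + (ω ^ 2 * ω) • z + (ω * ω * ω) • z = (1 + ω ^ 3 + ω ^ 3) • z := by module
    _ = z := by
      rw [h3, show (1 + 1 + 1 : F) = 1 by linear_combination h2, one_smul]

theorem cube_id {g : GL (Fin 2) F} (hg : g ^ 3 = 1) (z : TT F) : act g (act g (act g z)) = z := by
  rw [← act_mul, ← act_mul]
  have : g * g * g = 1 := by rw [← hg, pow_succ, pow_two]
  rw [this, act_one]

include hω hF in
theorem not_CR : ¬ IsCR (HH F) (LP F 2 5) := by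
  rintro ⟨ι, W, hirr, -, hsup⟩
  set D1 := act (dg ω 1 (dgω hω)) with hD1
  set D2 := act (dg 1 ω (dgω' hω)) with hD2
  have h3 := ω3 hω
  have c1 : ∀ z, D1 (D1 (D1 z)) = z := by
    apply cube_id
    have e1 := dg_mul (dgω hω) (dgω hω) (by
      have := (ω_ne hω).1
      rw [mul_one, mul_one, mul_zero, sub_zero]; exact mul_ne_zero this this)
    have e2 := dg_mul (a := ω * ω) (b := 1 * 1) (by
      have := (ω_ne hω).1
      rw [mul_one, mul_one, mul_zero, sub_zero]; exact mul_ne_zero this this) (dgω hω) (by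
      have := (ω_ne hω).1
      rw [mul_one, mul_one, mul_one, mul_zero, sub_zero]
      exact mul_ne_zero (mul_ne_zero this this) this)
    rw [pow_succ, pow_two, e1, e2]
    obtain ⟨h', e⟩ := dg_congr (a := ω * ω * ω) (b := 1 * 1 * 1) (a' := 1) (b' := 1) (by
      have := (ω_ne hω).1
      rw [mul_one, mul_one, mul_one, mul_zero, sub_zero]
      exact mul_ne_zero (mul_ne_zero this this) this) (by rw [← h3]; ring) (by ring)
    rw [e, dg_one]
  have c2 : ∀ z, D2 (D2 (D2 z)) = z := by
    apply cube_id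
    have e1 := dg_mul (dgω' hω) (dgω' hω) (by
      have := (ω_ne hω).1
      rw [one_mul, one_mul, mul_zero, sub_zero]; exact mul_ne_zero this this)
    have e2 := dg_mul (b := ω * ω) (a := 1 * 1) (by
      have := (ω_ne hω).1
      rw [one_mul, one_mul, mul_zero, sub_zero]; exact mul_ne_zero this this) (dgω' hω) (by
      have := (ω_ne hω).1
      rw [one_mul, one_mul, one_mul, mul_zero, sub_zero]
      exact mul_ne_zero (mul_ne_zero this this) this)
    rw [pow_succ, pow_two, e1, e2]
    obtain ⟨h', e⟩ := dg_congr (b := ω * ω * ω) (a := 1 * 1 * 1) (a' := 1) (b' := 1) (by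
      have := (ω_ne hω).1
      rw [one_mul, one_mul, one_mul, mul_zero, sub_zero]
      exact mul_ne_zero (mul_ne_zero this this) this) (by ring) (by rw [← h3]; ring)
    rw [e, dg_one]
  have c12 : ∀ z, D1 (D2 z) = D2 (D1 z) := by
    intro z
    rw [hD1, hD2, ← act_mul, ← act_mul]
    congr 1
    congr 1
    apply Units.ext
    rw [Units.val_mul, Units.val_mul]
    change !![ω, 0; 0, 1] * !![1, 0; 0, ω] = !![1, 0; 0, ω] * !![ω, 0; 0, 1]
    rw [Matrix.mul_fin_two, Matrix.mul_fin_two]
    simp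
  set E : TT F → TT F := fun z => ee ω D1 (ee ω D2 z) with hE
  have hE1 : ∀ z, D1 (E z) = ω • E z := fun z => ee_eig hω c1 _
  have hE2 : ∀ z, D2 (E z) = ω • E z := by
    intro z
    rw [hE]
    beta_reduce
    rw [ee_comm c12, ee_eig hω c2]
    unfold ee
    simp only [map_smul]
    module
  have hEadd : ∀ z z', E (z + z') = E z + E z' := by
    intro z z'
    rw [hE]
    beta_reduce
    unfold ee
    simp only [map_add, map_smul]
    module
  have hEsmul : ∀ (c : F) z, E (c • z) = c • E z := by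
    intro c z
    rw [hE]
    beta_reduce
    unfold ee
    simp only [map_add, map_smul]
    module
  -- the joint eigenvectors of a component
  have key : ∀ i, ∀ z ∈ W i, act (sw F) (E z) = E z := by
    intro i z hz
    have hinv := (hirr i).1
    have m1 : ∀ z ∈ W i, D1 z ∈ W i := fun z hz => hinv _ (dg_mem _ _ _) z hz
    have m2 : ∀ z ∈ W i, D2 z ∈ W i := fun z hz => hinv _ (dg_mem _ _ _) z hz
    have mee : ∀ (D : TT F →ₐ[F] TT F), (∀ z ∈ W i, D z ∈ W i) → ∀ z ∈ W i, ee ω D z ∈ W i := by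
      intro D hD z hz
      exact (W i).add_mem ((W i).add_mem hz ((W i).smul_mem _ (hD z hz)))
        ((W i).smul_mem _ (hD _ (hD z hz)))
    have mE : E z ∈ W i := mee D1 m1 _ (mee D2 m2 _ hz)
    let N : Submodule F (TT F) :=
      { carrier := {z | z ∈ W i ∧ D1 z = ω • z ∧ D2 z = ω • z}
        add_mem' := by
          rintro a b ⟨ha, ha1, ha2⟩ ⟨hb, hb1, hb2⟩
          exact ⟨(W i).add_mem ha hb, by rw [map_add, ha1, hb1, smul_add],
            by rw [map_add, ha2, hb2, smul_add]⟩
        zero_mem' := ⟨(W i).zero_mem, by simp, by simp⟩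
        smul_mem' := by
          rintro c a ⟨ha, ha1, ha2⟩
          exact ⟨(W i).smul_mem _ ha, by rw [map_smul, ha1, smul_comm],
            by rw [map_smul, ha2, smul_comm]⟩ }
    have hNinv : IsInv (HH F) N := by
      refine inv_of (fun a b h w hw => ?_) (fun w hw => ?_)
      · rw [torus hω hF hw.2.1 hw.2.2]
        exact N.smul_mem _ hw
      · refine ⟨hinv _ sw_mem _ hw.1, ?_, ?_⟩
        · rw [hD1, ← act_mul, sw_dg (dgω hω) (dgω' hω), act_mul, ← hD2, hw.2.2, map_smul]
        · rw [hD2, ← act_mul, sw_dg (dgω' hω) (dgω hω), act_mul, ← hD1, hw.2.1, map_smul]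
    rcases (hirr i).2.2 N (fun z hz => hz.1) hNinv with hN | hN
    · have : E z ∈ N := ⟨mE, hE1 z, hE2 z⟩
      rw [hN, Submodule.mem_bot] at this
      rw [this, map_zero]
    · have hWN : ∀ z ∈ W i, D1 z = ω • z ∧ D2 z = ω • z := by
        intro z hz
        rw [← hN] at hz
        exact hz.2
      let M : Submodule F (TT F) :=
        { carrier := {z | z ∈ W i ∧ act (sw F) z = z}
          add_mem' := by
            rintro a b ⟨ha, ha1⟩ ⟨hb, hb1⟩
            exact ⟨(W i).add_mem ha hb, by rw [map_add, ha1, hb1]⟩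
          zero_mem' := ⟨(W i).zero_mem, by simp⟩
          smul_mem' := by
            rintro c a ⟨ha, ha1⟩
            exact ⟨(W i).smul_mem _ ha, by rw [map_smul, ha1]⟩ }
      have hMinv : IsInv (HH F) M := by
        refine inv_of (fun a b h w hw => ?_) (fun w hw => ?_)
        · obtain ⟨e1, e2⟩ := hWN w hw.1
          rw [torus hω hF e1 e2]
          exact M.smul_mem _ hw
        · exact ⟨hinv _ sw_mem _ hw.1, by rw [hw.2, hw.2]⟩
      rcases (hirr i).2.2 M (fun z hz => hz.1) hMinv with hM | hM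
      · exfalso
        apply (hirr i).2.1
        rw [eq_bot_iff]
        intro z hz
        have h4 : z + act (sw F) z ∈ M :=
          ⟨(W i).add_mem hz (hinv _ sw_mem _ hz), by rw [map_add, sw_sw, add_comm]⟩
        rw [hM, Submodule.mem_bot] at h4
        have h5 : z + z = 0 := by
          have h2 : (2 : F) = 0 := two0
          rw [← two_smul F z, h2, zero_smul]
        have h6 : act (sw F) z = z := by
          rw [← add_right_inj z, h4, h5]
        have h7 : z ∈ M := ⟨hz, h6⟩
        rwa [hM] at h7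
      · have : E z ∈ M := by rw [hM]; exact mE
        exact this.2
  let Z : Submodule F (TT F) :=
    { carrier := {z | act (sw F) (E z) = E z}
      add_mem' := by
        intro a b ha hb
        change act (sw F) (E (a + b)) = E (a + b)
        rw [hEadd, map_add, ha, hb]
      zero_mem' := by
        change act (sw F) (E 0) = E 0
        have : E 0 = 0 := by
          have := hEsmul 0 0
          rwa [zero_smul, zero_smul] at this
        rw [this, map_zero]
      smul_mem' := by
        intro c a ha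
        change act (sw F) (E (c • a)) = E (c • a)
        rw [hEsmul, map_smul, ha] }
  have hle : LP F 2 5 ≤ Z := by
    rw [← hsup]
    exact iSup_le fun i z hz => key i z hz
  have hw0 : act (sw F) (E (w0 F)) = E (w0 F) := hle (W5_le w0_mem)
  have e2 : D2 (w0 F) = ω • w0 F := by rw [hD2, dg_w0]; module
  have e1 : D1 (w0 F) = ω • w0 F := by
    rw [hD1, dg_w0]
    congr 1
    rw [h3]; ring
  have e3 : E (w0 F) = w0 F := by
    rw [hE]
    beta_reduce
    rw [ee_fix e2 hω, ee_fix e1 hω]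
  rw [e3, sw_w0] at hw0
  have h1 : (-1 : F) • w0 F + (0 : F) • w1 F + (0 : F) • w2 F + (1 : F) • w3 F = 0 := by
    rw [hw0]; module
  exact one_ne_zero (coeffs h1).2.2.2

end cr

/-- The main result. -/
theorem result : ∃ (F : Type) (_ : Field F) (_ : Finite F) (d n : ℕ) (H : Subgroup (GL (Fin d) F)),
    IsCoatom H ∧ Star H n ∧ ¬ Star H (n + 1) ∧ ¬ IsCR H (LP F d n) ∧
      ¬ IsUniserial H (LP F d n) := by
  haveI : Fact (Nat.Prime 2) := ⟨Nat.prime_two⟩
  haveI : Fintype (GaloisField 2 2) := Fintype.ofFinite _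
  have hcard : Fintype.card (GaloisField 2 2) = 4 := by
    rw [← Nat.card_eq_fintype_card, GaloisField.card 2 2 (by norm_num)]; norm_num
  have hcube : ∀ a : GaloisField 2 2, a ≠ 0 → a ^ 3 = 1 := by
    intro a ha
    have := FiniteField.pow_card_sub_one_eq_one a ha
    rwa [hcard] at this
  obtain ⟨ω, hω0, hω1⟩ : ∃ ω : GaloisField 2 2, ω ≠ 0 ∧ ω ≠ 1 := by
    classical
    by_contra h
    push Not at h
    have : (Finset.univ : Finset (GaloisField 2 2)) ⊆ {0, 1} := by
      intro a _
      by_cases ha : a = 0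
      · simp [ha]
      · simp [h a ha]
    have h1 := Finset.card_le_card this
    rw [Finset.card_univ, hcard] at h1
    have h2 : ({0, 1} : Finset (GaloisField 2 2)).card ≤ 2 := Finset.card_le_two
    omega
  have hω : ω * ω + ω + 1 = 0 := by
    have h1 := hcube ω hω0
    have h2 : (ω - 1) * (ω * ω + ω + 1) = 0 := by linear_combination h1
    exact (mul_eq_zero.1 h2).resolve_left (sub_ne_zero.2 hω1)
  have hF : ∀ a : GaloisField 2 2, a ≠ 0 → a = 1 ∨ a = ω ∨ a = ω * ω := by
    intro a ha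
    have h1 := hcube a ha
    have h3 := ω3 hω
    have h2 : (a - 1) * ((a - ω) * (a - ω * ω)) = 0 := by
      linear_combination h1 - h3 - (a ^ 2 - ω * a) * hω
    rcases mul_eq_zero.1 h2 with h | h
    · exact Or.inl (sub_eq_zero.1 h)
    rcases mul_eq_zero.1 h with h | h
    · exact Or.inr (Or.inl (sub_eq_zero.1 h))
    · exact Or.inr (Or.inr (sub_eq_zero.1 h))
  exact ⟨GaloisField 2 2, inferInstance, inferInstance, 2, 5, HH _, isCoatom, star5 hω,
    not_star6 hω, not_CR hω hF, not_uniserial hω⟩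

end Pool.Agent.Results.MP_a1df92_al.LieFifthPower
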